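import Pool.Agent.H168DD.Graph

/-!
# The directed domination number of a regular graph is at most half its order

For every `r ≥ 3` and every `r`-regular graph `G` on `n` vertices, every orientation of `G` has a
dominating set of at most `n / 2` vertices.  Hence `M (n, r) ≤ n / 2`, with equality whenever
`2 r` divides `n`.

The proof is in `Pool.Agent.H168DD.*`.
-/

set_option autoImplicit false

universe u

namespace Pool.Agent.Results.MP_a74ba6_co.HalfBound

/-- `D` is an orientation of `G`: every edge of `G` gets exactly one of its two directions, and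
there are no other arcs. -/
def IsOrientation {V : Type u} (G : SimpleGraph V) (D : Digraph V) : Prop :=
  (∀ a b, D.Adj a b → ¬ D.Adj b a) ∧ ∀ a b, G.Adj a b ↔ (D.Adj a b ∨ D.Adj b a)

/-- `S` is a dominating set of `D`: every vertex outside `S` is the head of an arc whose tail lies
in `S`. -/
def IsDominating {V : Type u} (D : Digraph V) (S : Finset V) : Prop :=
  ∀ v, v ∉ S → ∃ w ∈ S, D.Adj w v

/-- The domination number of `D`: the minimum size of a dominating set. -/
noncomputable def gamma {V : Type u} (D : Digraph V) : ℕ :=
  sInf {k | ∃ S : Finset V, IsDominating D S ∧ S.card = k}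

/-- The directed domination number of `G`: the maximum of `gamma D` over all orientations `D` of
`G`. -/
noncomputable def Gamma {V : Type u} (G : SimpleGraph V) : ℕ :=
  sSup {k | ∃ D : Digraph V, IsOrientation G D ∧ gamma D = k}

open Classical in
/-- `M n r` is the maximum of the directed domination number over all `r`-regular graphs on `n`
vertices. -/
noncomputable def M (n r : ℕ) : ℕ :=
  sSup {k | ∃ G : SimpleGraph (Fin n), G.IsRegularOfDegree r ∧ Gamma G = k}

lemma gamma_le {V : Type u} {D : Digraph V} {S : Finset V} (h : IsDominating D S) :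
    gamma D ≤ S.card := Nat.sInf_le ⟨S, h, rfl⟩

lemma gamma_half {V : Type u} [Fintype V] {G : SimpleGraph V} [G.LocallyFinite] {r : ℕ}
    (hr : 3 ≤ r) (hG : G.IsRegularOfDegree r) {D : Digraph V} (hD : IsOrientation G D) :
    2 * gamma D ≤ Fintype.card V := by
  classical
  have hreg : H168DD.Reg G r := by
    intro v
    rw [← hG v]
    unfold H168DD.nb SimpleGraph.degree
    congr 1
    ext w
    simp
  obtain ⟨C, hC, hc⟩ := H168DD.main hreg hr (D := D.Adj) ⟨hD.1, hD.2⟩
  have := gamma_le (D := D) (S := C) hC
  omega

lemma Gamma_half {V : Type u} [Fintype V] {G : SimpleGraph V} [G.LocallyFinite] {r : ℕ}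
    (hr : 3 ≤ r) (hG : G.IsRegularOfDegree r) : 2 * Gamma G ≤ Fintype.card V := by
  unfold Gamma
  rcases Set.eq_empty_or_nonempty {k | ∃ D : Digraph V, IsOrientation G D ∧ gamma D = k} with h | h
  · rw [h]; simp
  · have : sSup {k | ∃ D : Digraph V, IsOrientation G D ∧ gamma D = k} ≤ Fintype.card V / 2 := by
      apply csSup_le h
      rintro k ⟨D, hD, rfl⟩
      have := gamma_half hr hG hD
      omega
    omega

lemma M_half {n r : ℕ} (hr : 3 ≤ r) : 2 * M n r ≤ n := by
  classical
  unfold M
  rcases Set.eq_empty_or_nonempty
    {k | ∃ G : SimpleGraph (Fin n), G.IsRegularOfDegree r ∧ Gamma G = k} with h | h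
  · rw [h]; simp
  · have : sSup {k | ∃ G : SimpleGraph (Fin n), G.IsRegularOfDegree r ∧ Gamma G = k} ≤ n / 2 := by
      apply csSup_le h
      rintro k ⟨G, hG, rfl⟩
      have := Gamma_half hr hG
      rw [Fintype.card_fin] at this
      omega
    omega

/-- the lower bound: disjoint copies of `K_{r,r}` -/
lemma le_M {n r q : ℕ} (hr : 3 ≤ r) (hn : n = 2 * r * q) : r * q ≤ M n r := by
  classical
  have hcard : Fintype.card (Fin n) = Fintype.card (Fin q × (Fin r ⊕ Fin r)) := by
    simp only [Fintype.card_fin, Fintype.card_prod, Fintype.card_sum]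
    rw [hn]; ring
  let e : Fin n ≃ Fin q × (Fin r ⊕ Fin r) := Fintype.equivOfCardEq hcard
  let A : Fin n → Fin n → Prop := fun u v =>
    (e u).1 = (e v).1 ∧ (e u).2.isLeft = true ∧ (e v).2.isRight = true
  have hA : ∀ u v, A u v → ¬ A v u := by
    rintro u v ⟨_, h1, _⟩ ⟨_, _, h2⟩
    cases h : (e u).2 with
    | inl a => rw [h] at h2; simp at h2
    | inr a => rw [h] at h1; simp at h1
  let G : SimpleGraph (Fin n) :=
    { Adj := fun u v => A u v ∨ A v u
      symm := ⟨fun u v h => h.symm⟩
      loopless := ⟨fun u h => by
        rcases h with h | h <;> exact hA u u h h⟩ }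
  let D : Digraph (Fin n) := { Adj := A }
  have hD : IsOrientation G D := ⟨hA, fun a b => Iff.rfl⟩
  have hGr : G.IsRegularOfDegree r := by
    intro u
    unfold SimpleGraph.degree
    cases h : (e u).2 with
    | inl a =>
      have : G.neighborFinset u = (Finset.univ : Finset (Fin r)).image
          (fun b => e.symm ((e u).1, Sum.inr b)) := by
        ext v
        rw [SimpleGraph.mem_neighborFinset, Finset.mem_image]
        constructor
        · rintro (⟨h1, _, h3⟩ | ⟨_, _, h3⟩)
          · cases hv : (e v).2 with
            | inl b => rw [hv] at h3; simp at h3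
            | inr b =>
              refine ⟨b, Finset.mem_univ _, ?_⟩
              rw [Equiv.symm_apply_eq, h1, ← hv]
          · rw [h] at h3; simp at h3
        · rintro ⟨b, _, rfl⟩
          left
          refine ⟨by simp, by simp [h], by simp⟩
      rw [this, Finset.card_image_of_injective, Finset.card_univ, Fintype.card_fin]
      intro b b' hb
      simpa using hb
    | inr a =>
      have : G.neighborFinset u = (Finset.univ : Finset (Fin r)).image
          (fun b => e.symm ((e u).1, Sum.inl b)) := by
        ext v
        rw [SimpleGraph.mem_neighborFinset, Finset.mem_image]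
        constructor
        · rintro (⟨_, h3, _⟩ | ⟨h1, h3, _⟩)
          · rw [h] at h3; simp at h3
          · cases hv : (e v).2 with
            | inr b => rw [hv] at h3; simp at h3
            | inl b =>
              refine ⟨b, Finset.mem_univ _, ?_⟩
              rw [Equiv.symm_apply_eq, ← h1, ← hv]
        · rintro ⟨b, _, rfl⟩
          right
          refine ⟨by simp, by simp, by simp [h]⟩
      rw [this, Finset.card_image_of_injective, Finset.card_univ, Fintype.card_fin]
      intro b b' hb
      simpa using hb
  -- the sources lie in every dominating set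
  have hsrc : ∀ S : Finset (Fin n), IsDominating D S → r * q ≤ S.card := by
    intro S hS
    have hsub : (Finset.univ : Finset (Fin q × Fin r)).image
        (fun p => e.symm (p.1, Sum.inl p.2)) ⊆ S := by
      intro v hv
      rw [Finset.mem_image] at hv
      obtain ⟨p, _, rfl⟩ := hv
      by_contra hnot
      obtain ⟨w, _, _, _, h3⟩ := hS _ hnot
      simp at h3
    have h1 := Finset.card_le_card hsub
    rw [Finset.card_image_of_injective, Finset.card_univ, Fintype.card_prod, Fintype.card_fin,
      Fintype.card_fin] at h1
    · rw [mul_comm]; exact h1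
    · rintro ⟨a, b⟩ ⟨a', b'⟩ h
      simpa using h
  have hgam : r * q ≤ gamma D := by
    apply le_csInf
    · exact ⟨_, Finset.univ, fun v hv => absurd (Finset.mem_univ v) hv, rfl⟩
    · rintro k ⟨S, hS, rfl⟩
      exact hsrc S hS
  have hGam : gamma D ≤ Gamma G := by
    apply le_csSup
    · refine ⟨n / 2, ?_⟩
      rintro k ⟨D', hD', rfl⟩
      have := gamma_half hr hGr hD'
      rw [Fintype.card_fin] at this
      omega
    · exact ⟨D, hD, rfl⟩
  have hM : Gamma G ≤ M n r := by
    apply le_csSup
    · refine ⟨n / 2, ?_⟩
      rintro k ⟨G', hG', rfl⟩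
      have := Gamma_half hr hG'
      rw [Fintype.card_fin] at this
      omega
    · refine ⟨G, ?_, rfl⟩
      intro u
      rw [← hGr u]
      unfold SimpleGraph.degree
      apply congrArg Finset.card
      ext w
      rw [SimpleGraph.mem_neighborFinset, SimpleGraph.mem_neighborFinset]
  exact hgam.trans (hGam.trans hM)

/-- **Every `r`-regular graph `G` with `r ≥ 3` has directed domination number at most half its
order**; so `M (n, r) ≤ n / 2`, and `M (n, r) = n / 2` whenever `2 r` divides `n`. -/
theorem result (r : ℕ) (hr : 3 ≤ r) :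
    (∀ (V : Type u) [Fintype V] (G : SimpleGraph V) [G.LocallyFinite], G.IsRegularOfDegree r →
      2 * Gamma G ≤ Fintype.card V) ∧
    (∀ n : ℕ, 2 * M n r ≤ n) ∧ ∀ n : ℕ, 2 * r ∣ n → 2 * M n r = n := by
  refine ⟨fun V _ G _ hG => Gamma_half hr hG, fun n => M_half hr, fun n hn => ?_⟩
  obtain ⟨q, hq⟩ := hn
  have h1 := M_half (n := n) hr
  have h2 := le_M hr hq
  have h3 : n = 2 * (r * q) := by rw [hq]; ring
  omega

end Pool.Agent.Results.MP_a74ba6_co.HalfBound
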